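import Pool.Agent.U198.BC.Cover

/-!
# Coverings by sets closed under digitwise operations

`r A n` is the number of ordered pairs of elements of `A` with sum `n`. A *piece* is the image
`u C + v` (`u ≥ 1`, `v ≥ 0`) of a set `C` of natural numbers which is closed under an operation on
the digits. Two classes of operations are used, for a bound `G` on the bases:

* `ClosedI G`: `C` is closed under some Boolean function `f` of any number of variables, not affine
  over the field with two elements, applied to the binary digits; or, in some base `2 ≤ g ≤ G`,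
  under a digitwise semilattice operation (which may depend on the place) or the digitwise median.
* `ClosedII G`: `C` is closed under some Boolean function `f`, of any number of variables, which
  depends on at least two of them, applied to the binary digits; or, in some base `2 ≤ g ≤ G`,
  under a digitwise semilattice operation, the digitwise median, or `a - b + c` modulo `g`.

(Every nonempty set is closed under the Boolean functions which are a single variable.) One element
is a piece of both classes.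

1. (One piece, one scale.) For every `ε > 0` there is `c > 0` such that for all large `N`: if `A`
   contains a piece of class I with at least `N ^ ε` elements below `N`, then `r A x ≥ N ^ c` for
   some `x ≤ (4 G + 10) N`. For class II this holds for every `ε > 5/11`.
2. (Covering law.) Let `κ < 1/2` (class I), `κ < 1/22` (class II). There is `c > 0` such that for
   every `δ > 0` and all large `N`: if at most `N ^ κ` pieces contained in `A` cover at least
   `δ √N` elements of `A` below `N`, then `r A x ≥ N ^ c` for some `x ≤ (4 G + 10) N`. So in a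
   counterexample to either question every covering of `δ √N` elements below `N` by pieces
   of class I needs more than `N ^ κ` pieces, for every `κ < 1/2`: it is not essentially better
   than the covering by single elements.
3. (Both questions.) If `r A n ≥ 1` for all large `n`, or `A` is infinite and its `n`-th element is
   at most `C n ^ 2` for infinitely many `n`, and `A` is the union of a family of pieces of which,
   for large `N`, at most `N ^ κ` meet `[0, N)`, then `r A n ≥ n ^ c` for infinitely many `n`.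
-/

set_option autoImplicit false

namespace Pool.Agent.Results.MP_12a1af_nt.BooleanClosedCoverings

open Filter

/-- The number of ordered pairs of elements of `A` with sum `n`. -/
noncomputable def r (A : Set ℕ) (n : ℕ) : ℕ :=
  Set.ncard {p : ℕ × ℕ | p.1 ∈ A ∧ p.2 ∈ A ∧ p.1 + p.2 = n}

/-- `C` is closed under the Boolean function `f` applied to the binary digits. -/
def BooleanClosed {k : ℕ} (f : (Fin k → Bool) → Bool) (C : Set ℕ) : Prop :=
  ∀ a : Fin k → ℕ, (∀ i, a i ∈ C) → ∃ b ∈ C, ∀ j, b.testBit j = f (fun i => (a i).testBit j)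

/-- `f` is an affine function over the field with two elements. -/
def Affine {k : ℕ} (f : (Fin k → Bool) → Bool) : Prop :=
  ∀ x y z : Fin k → Bool, f (fun i => (x i ^^ y i) ^^ z i) = ((f x ^^ f y) ^^ f z)

/-- `f` depends on its `i`-th variable. -/
def Depends {k : ℕ} (f : (Fin k → Bool) → Bool) (i : Fin k) : Prop :=
  ∃ x : Fin k → Bool, f (Function.update x i (!x i)) ≠ f x

/-- The `j`-th digit of `a` in base `g`. -/
def digit (g a j : ℕ) : ℕ := a / g ^ j % g

/-- `C` is closed under a digitwise semilattice operation in base `g`; the operation may depend on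
the place. -/
def SemilatticeClosed (g : ℕ) (C : Set ℕ) : Prop :=
  ∃ op : ℕ → ℕ → ℕ → ℕ,
    (∀ j x y z : ℕ, x < g → y < g → z < g → op j x y < g ∧ op j x x = x ∧ op j x y = op j y x ∧
      op j (op j x y) z = op j x (op j y z)) ∧
    ∀ a ∈ C, ∀ b ∈ C, ∃ d ∈ C, ∀ j, digit g d j = op j (digit g a j) (digit g b j)

/-- `C` is closed under the digitwise median in base `g`. -/
def MedianClosed (g : ℕ) (C : Set ℕ) : Prop :=
  ∀ a ∈ C, ∀ b ∈ C, ∀ c ∈ C, ∃ d ∈ C, ∀ j, digit g d j =
    max (min (digit g a j) (digit g b j)) (min (max (digit g a j) (digit g b j)) (digit g c j))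

/-- `C` is closed under `a - b + c`, digit by digit modulo `g`. -/
def AffineClosed (g : ℕ) (C : Set ℕ) : Prop :=
  ∀ a ∈ C, ∀ b ∈ C, ∀ c ∈ C, ∃ d ∈ C, ∀ j,
    (digit g d j + digit g b j) % g = (digit g a j + digit g c j) % g

/-- Class I. -/
def ClosedI (G : ℕ) (C : Set ℕ) : Prop :=
  (∃ (k : ℕ) (f : (Fin k → Bool) → Bool), ¬ Affine f ∧ BooleanClosed f C) ∨
    ∃ g, 2 ≤ g ∧ g ≤ G ∧ (SemilatticeClosed g C ∨ MedianClosed g C)

/-- Class II. -/
def ClosedII (G : ℕ) (C : Set ℕ) : Prop :=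
  (∃ (k : ℕ) (f : (Fin k → Bool) → Bool),
    (∃ i j : Fin k, i ≠ j ∧ Depends f i ∧ Depends f j) ∧ BooleanClosed f C) ∨
    ∃ g, 2 ≤ g ∧ g ≤ G ∧ (SemilatticeClosed g C ∨ MedianClosed g C ∨ AffineClosed g C)

/-- `P = u C + v` with `u ≥ 1`, `v ≥ 0` and `C` in the class `K`. -/
def Piece (K : Set ℕ → Prop) (P : Set ℕ) : Prop :=
  ∃ (C : Set ℕ) (u v : ℕ), 1 ≤ u ∧ K C ∧ P = (fun c => u * c + v) '' C

/-- **Pieces and coverings in the Erdős–Turán problem.** -/
theorem result :
    -- one piece at one scale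
    (∀ (G : ℕ) (ε : ℝ), 0 < ε → ∃ c : ℝ, 0 < c ∧ ∀ᶠ N : ℕ in atTop, ∀ A P : Set ℕ,
      P ⊆ A → Piece (ClosedI G) P → (N : ℝ) ^ ε ≤ ((P ∩ Set.Iio N).ncard : ℝ) →
      ∃ x ≤ (4 * G + 10) * N, (N : ℝ) ^ c ≤ (r A x : ℝ)) ∧
    (∀ (G : ℕ) (ε : ℝ), 5 / 11 < ε → ∃ c : ℝ, 0 < c ∧ ∀ᶠ N : ℕ in atTop, ∀ A P : Set ℕ,
      P ⊆ A → Piece (ClosedII G) P → (N : ℝ) ^ ε ≤ ((P ∩ Set.Iio N).ncard : ℝ) →
      ∃ x ≤ (4 * G + 10) * N, (N : ℝ) ^ c ≤ (r A x : ℝ)) ∧
    -- the covering law
    (∀ (G : ℕ) (κ : ℝ) (K : Set ℕ → Prop),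
      (κ < 1 / 2 ∧ K = ClosedI G) ∨ (κ < 1 / 22 ∧ K = ClosedII G) →
      ∃ c : ℝ, 0 < c ∧ ∀ δ : ℝ, 0 < δ → ∀ᶠ N : ℕ in atTop,
      ∀ (A : Set ℕ) (F : Set (Set ℕ)), F.Finite → (F.ncard : ℝ) ≤ (N : ℝ) ^ κ →
        (∀ P ∈ F, P ⊆ A ∧ Piece K P) →
        δ * Real.sqrt N ≤ ((⋃₀ F ∩ Set.Iio N).ncard : ℝ) →
        ∃ x ≤ (4 * G + 10) * N, (N : ℝ) ^ c ≤ (r A x : ℝ)) ∧
    -- the two questions
    (∀ (G : ℕ) (κ : ℝ) (K : Set ℕ → Prop),
      (κ < 1 / 2 ∧ K = ClosedI G) ∨ (κ < 1 / 22 ∧ K = ClosedII G) →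
      ∃ c : ℝ, 0 < c ∧ ∀ A : Set ℕ,
      ((∀ᶠ n : ℕ in atTop, 1 ≤ r A n) ∨
        (A.Infinite ∧ ∃ C : ℝ, ∃ᶠ n : ℕ in atTop,
          (Nat.nth (· ∈ A) n : ℝ) ≤ C * ((n : ℝ) + 1) ^ 2)) →
      ∀ F : Set (Set ℕ), (∀ P ∈ F, Piece K P) → A = ⋃₀ F →
        (∀ᶠ N : ℕ in atTop, {P ∈ F | (P ∩ Set.Iio N).Nonempty}.Finite ∧
          ({P ∈ F | (P ∩ Set.Iio N).Nonempty}.ncard : ℝ) ≤ (N : ℝ) ^ κ) →
        ∃ᶠ n : ℕ in atTop, (n : ℝ) ^ c ≤ (r A n : ℝ)) := by
  have mono : ∀ {A P : Set ℕ}, P ⊆ A → ∀ x, r P x ≤ r A x := fun h x =>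
    Pool.Agent.H523R4.BC.rep2_mono h x
  refine ⟨?_, ?_, ?_, ?_⟩
  · intro G ε hε
    obtain ⟨c, hc, h⟩ := Pool.Agent.U198.BC.loc_img_NL G hε
    refine ⟨c, hc, h.mono fun N hN A P hPA hP hcard => ?_⟩
    obtain ⟨x, hx, hr⟩ := hN P hP hcard
    exact ⟨x, hx, hr.trans (by exact_mod_cast mono hPA x)⟩
  · intro G ε hε
    obtain ⟨c, hc, h⟩ := Pool.Agent.U198.BC.loc_img_Al G hε
    refine ⟨c, hc, h.mono fun N hN A P hPA hP hcard => ?_⟩
    obtain ⟨x, hx, hr⟩ := hN P hP hcard
    exact ⟨x, hx, hr.trans (by exact_mod_cast mono hPA x)⟩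
  · intro G κ K hK
    rcases hK with ⟨hκ, rfl⟩ | ⟨hκ, rfl⟩
    · exact Pool.Agent.U198.BC.cover (ε := (1 / 2 - κ) / 2) (by linarith)
        (Pool.Agent.U198.BC.loc_img_NL G (by linarith))
    · exact Pool.Agent.U198.BC.cover (ε := 5 / 11 + (1 / 22 - κ) / 2) (by linarith)
        (Pool.Agent.U198.BC.loc_img_Al G (by linarith))
  · intro G κ K hK
    rcases hK with ⟨hκ, rfl⟩ | ⟨hκ, rfl⟩
    · exact Pool.Agent.U198.BC.questions (ε := (1 / 2 - κ) / 2) (by linarith)
        (Pool.Agent.U198.BC.loc_img_NL G (by linarith))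
    · exact Pool.Agent.U198.BC.questions (ε := 5 / 11 + (1 / 22 - κ) / 2) (by linarith)
        (Pool.Agent.U198.BC.loc_img_Al G (by linarith))

end Pool.Agent.Results.MP_12a1af_nt.BooleanClosedCoverings
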